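import Pool.Agent.Lib.MP_122452_an.Main

set_option autoImplicit false

/-!
# Full affirmative answer to Q1 of MP_122452_an

`Admissible X` (see `Pool.Agent.Lib.MP_122452_an.Defs`) asks, for every open `U ⊆ X`, that every
Lipschitz-open second order Lipschitz map `f : U → X` is locally convex. The theorem below only
uses the instance `U = X` of this property, and concludes that the modulus of convexity of `X` is
of power type 2. In particular every admissible Banach space has modulus of convexity of power
type 2, see `of_admissible`.
-/

namespace Pool.Agent.Results.MP_122452_an.PowerTypeTwo

open Set Pool.Agent.Lib.MP_122452_an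

/-- If every Lipschitz-open, second order Lipschitz map `f : X → X` of the whole Banach space `X`
is locally convex, then `X` has modulus of convexity of power type 2. -/
theorem result (X : Type*) [NormedAddCommGroup X] [NormedSpace ℝ X] [CompleteSpace X]
    (h : ∀ f : X → X, LipschitzOpen univ f → SecondOrderLipschitz univ f → LocallyConvex univ f) :
    HasPowerTypeTwo X :=
  powerTypeTwo_of_global X h

/-- The literal form of Q1. -/
theorem of_admissible (X : Type*) [NormedAddCommGroup X] [NormedSpace ℝ X] [CompleteSpace X]
    (h : Admissible X) : HasPowerTypeTwo X :=
  result X (h univ isOpen_univ)

end Pool.Agent.Results.MP_122452_an.PowerTypeTwo
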